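import Mathlib

set_option autoImplicit false

namespace Pool.Agent.Results.MP_164a7b_al.Thickness

open SimpleGraph

noncomputable section

section general

variable {G : Type} [Group G]

/-- The Cayley graph of `G` with respect to the finite set `S`: the vertices `g ≠ h` are adjacent
when `h = g * s` or `g = h * s` for some `s ∈ S`. -/
def cayley (S : Finset G) : SimpleGraph G where
  Adj g h := g ≠ h ∧ ∃ s ∈ S, h = g * s ∨ g = h * s
  symm := ⟨fun _ _ h => ⟨h.1.symm, h.2.imp fun _ hs => ⟨hs.1, hs.2.symm⟩⟩⟩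
  loopless := ⟨fun _ h => h.1 rfl⟩

/-- The word length, the distance to the identity in the Cayley graph. -/
noncomputable def len (S : Finset G) (g : G) : ℕ := (cayley S).dist g 1

/-- One-endedness: `G` is infinite and the Cayley graph minus any finite set `F` of vertices has
exactly one infinite connected component. -/
def OneEnded (S : Finset G) : Prop :=
  Infinite G ∧ ∀ F : Finset G,
    ∃! C : ((cayley S).induce ((F : Set G)ᶜ)).ConnectedComponent, C.supp.Infinite

/-- The complement of the ball `B(n-1)`. -/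
def outside (S : Finset G) (n : ℕ) : Set G := {g | n ≤ len S g}

/-- The (union of the) infinite component(s) of the complement of `B(n-1)`. -/
def infComp (S : Finset G) (n : ℕ) : Set G :=
  {g | ∃ hg : g ∈ outside S n,
    (((cayley S).induce (outside S n)).connectedComponentMk ⟨g, hg⟩).supp.Infinite}

/-- `S(n,r)^∞`, the intersection of `B(n+r)` with the infinite component of the complement of
`B(n-1)`. -/
def sphInf (S : Finset G) (n r : ℕ) : Set G := {g | len S g ≤ n + r ∧ g ∈ infComp S n}

/-- The connection thickness function. -/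
noncomputable def th (S : Finset G) (n : ℕ) : ℕ :=
  sInf {r : ℕ | ((cayley S).induce (sphInf S n r)).Connected}

variable {S : Finset G}

lemma adj_mul_left (x : G) {g h : G} (H : (cayley S).Adj g h) :
    (cayley S).Adj (x * g) (x * h) := by
  obtain ⟨h1, s, hs, h2⟩ := H
  refine ⟨fun h => h1 (mul_left_cancel h), s, hs, ?_⟩
  rcases h2 with h2 | h2
  · left; rw [h2, mul_assoc]
  · right; rw [h2, mul_assoc]

/-- `conn S F x y`: there is a path from `x` to `y` in the Cayley graph with all vertices
outside `F` -/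
def conn (S : Finset G) (F : Set G) (x y : G) : Prop :=
  ∃ p : (cayley S).Walk x y, ∀ v ∈ p.support, v ∉ F

lemma conn_refl {F : Set G} {x : G} (h : x ∉ F) : conn S F x x :=
  ⟨Walk.nil, by simpa using h⟩

lemma conn_symm {F : Set G} {x y : G} (h : conn S F x y) : conn S F y x := by
  obtain ⟨p, hp⟩ := h
  exact ⟨p.reverse, by simpa using hp⟩

lemma conn_trans {F : Set G} {x y z : G} (h : conn S F x y) (h' : conn S F y z) :
    conn S F x z := by
  obtain ⟨p, hp⟩ := h
  obtain ⟨q, hq⟩ := h'
  refine ⟨p.append q, fun v hv => ?_⟩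
  rw [Walk.mem_support_append_iff] at hv
  rcases hv with hv | hv
  · exact hp v hv
  · exact hq v hv

lemma conn_mono {F F' : Set G} (hF : F ⊆ F') {x y : G} (h : conn S F' x y) : conn S F x y := by
  obtain ⟨p, hp⟩ := h
  exact ⟨p, fun v hv hv' => hp v hv (hF hv')⟩

lemma conn_adj {F : Set G} {x y : G} (hx : x ∉ F) (hy : y ∉ F) (h : (cayley S).Adj x y) :
    conn S F x y := by
  refine ⟨Walk.cons h Walk.nil, fun v hv => ?_⟩
  simp only [Walk.support_cons, Walk.support_nil, List.mem_cons, List.not_mem_nil, or_false] at hv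
  rcases hv with rfl | rfl
  · exact hx
  · exact hy

lemma conn_left {F : Set G} {x y : G} (h : conn S F x y) : x ∉ F := by
  obtain ⟨p, hp⟩ := h
  exact hp x p.start_mem_support

lemma conn_right {F : Set G} {x y : G} (h : conn S F x y) : y ∉ F := by
  obtain ⟨p, hp⟩ := h
  exact hp y p.end_mem_support

/-- left translation as a graph homomorphism -/
def lmul (S : Finset G) (x : G) : cayley S →g cayley S where
  toFun g := x * g
  map_rel' h := adj_mul_left x h

lemma conn_mul_left (x : G) {F F' : Set G} (hF : ∀ g, x * g ∈ F' → g ∈ F) {g h : G}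
    (H : conn S F g h) : conn S F' (x * g) (x * h) := by
  obtain ⟨p, hp⟩ := H
  refine ⟨p.map (lmul S x), fun v hv => ?_⟩
  have hv2 : v ∈ p.support.map (lmul S x) := by rw [← Walk.support_map]; exact hv
  rw [List.mem_map] at hv2
  obtain ⟨u, hu, rfl⟩ := hv2
  exact fun h' => hp u hu (hF u h')

/-- the first hit of a set `B` by a path -/
lemma first_hit {B : Set G} {x y : G} (p : (cayley S).Walk x y) (hx : x ∉ B) (hy : y ∈ B) :
    ∃ a b, a ∉ B ∧ b ∈ B ∧ (cayley S).Adj a b ∧ conn S B x a := by
  induction p with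
  | nil => exact absurd hy hx
  | @cons u v w h p ih =>
    by_cases hv : v ∈ B
    · exact ⟨u, v, hx, hv, h, conn_refl hx⟩
    · obtain ⟨a, b, ha, hb, hab, hc⟩ := ih hv hy
      exact ⟨a, b, ha, hb, hab, conn_trans (conn_adj hx hv h) hc⟩

lemma conn_iff_reachable' {U : Set G} {x y : G} (hx : x ∈ U) (hy : y ∈ U) :
    conn S Uᶜ x y ↔ ((cayley S).induce U).Reachable ⟨x, hx⟩ ⟨y, hy⟩ := by
  constructor
  · rintro ⟨p, hp⟩
    exact ⟨p.induce U fun v hv => by simpa using hp v hv⟩
  · rintro ⟨p⟩
    let f : (cayley S).induce U →g cayley S := (Embedding.induce U).toHom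
    refine ⟨p.map f, fun v hv => ?_⟩
    have hv2 : v ∈ p.support.map f := by
      rw [← Walk.support_map]; exact hv
    rw [List.mem_map] at hv2
    obtain ⟨u, -, rfl⟩ := hv2
    exact fun h => h u.2

lemma conn_iff_reachable {F : Set G} {x y : G} (hx : x ∉ F) (hy : y ∉ F) :
    conn S F x y ↔ ((cayley S).induce Fᶜ).Reachable ⟨x, hx⟩ ⟨y, hy⟩ := by
  have := conn_iff_reachable' (S := S) (U := Fᶜ) (x := x) (y := y) hx hy
  rwa [compl_compl] at this

variable (hconn : (cayley S).Connected)

include hconn

lemma dist_mul_left (x g h : G) : (cayley S).dist (x * g) (x * h) = (cayley S).dist g h := by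
  have key : ∀ (x g h : G), (cayley S).dist (x * g) (x * h) ≤ (cayley S).dist g h := by
    intro x g h
    obtain ⟨p, hp⟩ := hconn.exists_walk_length_eq_dist g h
    rw [← hp, ← Walk.length_map (lmul S x) p]
    exact dist_le _
  apply le_antisymm (key x g h)
  have := key x⁻¹ (x * g) (x * h)
  simpa using this

lemma len_mul (g h : G) : len S (g * h) ≤ len S g + len S h := by
  unfold len
  calc (cayley S).dist (g * h) 1 ≤ (cayley S).dist (g * h) g + (cayley S).dist g 1 :=
        hconn.dist_triangle
    _ = (cayley S).dist h 1 + (cayley S).dist g 1 := by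
        congr 1
        have := dist_mul_left hconn g h 1
        rwa [mul_one] at this
    _ = _ := add_comm _ _

lemma len_inv (g : G) : len S g⁻¹ = len S g := by
  unfold len
  have := dist_mul_left hconn g g⁻¹ 1
  rw [mul_inv_cancel, mul_one, SimpleGraph.dist_comm] at this
  exact this.symm

omit hconn in
lemma len_one : len S (1 : G) = 0 := by simp [len]

omit hconn in
lemma len_gen {s : G} (hs : s ∈ S) : len S s ≤ 1 := by
  unfold len
  by_cases h : s = 1
  · rw [h]; simp
  · have : (cayley S).Adj s 1 := ⟨h, s, hs, Or.inr (by simp)⟩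
    rw [SimpleGraph.dist_eq_one_iff_adj.2 this]

lemma len_adj {g h : G} (H : (cayley S).Adj g h) : len S h ≤ len S g + 1 := by
  unfold len
  have h1 : (cayley S).dist h g ≤ 1 := (SimpleGraph.dist_eq_one_iff_adj.2 H.symm).le
  have h2 := hconn.dist_triangle (u := h) (v := g) (w := 1)
  omega

/-- an invariant of words bounds elements of a given length -/
lemma len_induct (Inv : ℕ → G → Prop) (h0 : Inv 0 1)
    (hs : ∀ l g h, Inv l g → (cayley S).Adj g h → Inv (l + 1) h) (g : G) :
    Inv (len S g) g := by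
  obtain ⟨p, hp⟩ := hconn.exists_walk_length_eq_dist 1 g
  have h1 : len S g = p.length := by rw [hp, SimpleGraph.dist_comm]; rfl
  rw [h1]
  have key : ∀ (u v : G) (p : (cayley S).Walk u v) (l : ℕ), Inv l u → Inv (l + p.length) v := by
    intro u v p
    induction p with
    | nil => intro l h; simpa using h
    | @cons u v w h p ih =>
      intro l hl
      have := ih (l + 1) (hs l u v hl h)
      rw [Walk.length_cons]
      rwa [show l + (p.length + 1) = l + 1 + p.length by ring]
  have := key 1 g p 0 h0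
  simpa using this

/-- balls are finite -/
lemma ball_finite (n : ℕ) : {g | len S g ≤ n}.Finite := by
  classical
  induction n with
  | zero =>
    apply Set.Finite.subset (Set.finite_singleton (1 : G))
    intro g hg
    simp only [Set.mem_ofPred_eq, Nat.le_zero] at hg
    unfold len at hg
    rw [Set.mem_singleton_iff]
    exact hconn.dist_eq_zero_iff.1 hg
  | succ n ih =>
    let T : Set G := {g | len S g ≤ n}
    let S' : Set G := (S : Set G) ∪ (S : Set G)⁻¹ ∪ {1}
    have hS' : S'.Finite := ((Finset.finite_toSet S).union (Finset.finite_toSet S).inv).union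
      (Set.finite_singleton 1)
    apply Set.Finite.subset (ih.mul hS')
    intro g hg
    simp only [Set.mem_ofPred_eq] at hg
    by_cases h : len S g ≤ n
    · exact ⟨g, h, 1, by simp [S'], by simp⟩
    · obtain ⟨p, hp⟩ := hconn.exists_walk_length_eq_dist g 1
      cases p with
      | nil => simp [len_one] at h
      | @cons _ v _ hadj p =>
        have hv : len S v ≤ n := by
          have h1 : len S v ≤ p.length := dist_le p
          have h2 : len S g = p.length + 1 := by unfold len; rw [← hp]; simp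
          omega
        refine ⟨v, hv, v⁻¹ * g, ?_, by simp⟩
        obtain ⟨-, s, hs, h2⟩ := hadj
        rcases h2 with h2 | h2
        · have : v⁻¹ * g = s⁻¹ := by rw [h2]; group
          rw [this]; simp [S', hs]
        · have : v⁻¹ * g = s := by rw [h2]; group
          rw [this]; simp [S', hs]

/-! ### One-endedness -/

/-- a path of length at most `l` from `x` to `x * z` with `len z ≤ l` stays outside the ball of
radius `m` if `len x > m + l`. -/
lemma conn_short {x z : G} {m : ℕ} (h : m + len S z < len S x) {F : Set G}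
    (hF : ∀ g ∈ F, len S g ≤ m) : conn S F x (x * z) := by
  classical
  obtain ⟨p, hp⟩ := hconn.exists_walk_length_eq_dist x (x * z)
  refine ⟨p, fun v hv hvF => ?_⟩
  have h1 : (cayley S).dist x v ≤ p.length :=
    (dist_le (p.takeUntil v hv)).trans (p.length_takeUntil_le_length hv)
  have h2 : p.length = len S z := by
    rw [hp]
    have := dist_mul_left hconn x 1 z
    rw [mul_one] at this
    rw [this, SimpleGraph.dist_comm]; rfl
  have h3 : len S x ≤ (cayley S).dist x v + len S v := hconn.dist_triangle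
  have h4 := hF v hvF
  omega

/-- inside the ball of radius `m` every point is connected with `1` -/
lemma conn_ball {x : G} {m : ℕ} (h : len S x ≤ m) {F : Set G}
    (hF : ∀ g ∈ F, m < len S g) : conn S F x 1 := by
  classical
  obtain ⟨p, hp⟩ := hconn.exists_walk_length_eq_dist x 1
  refine ⟨p, fun v hv hvF => ?_⟩
  have h1 : len S v ≤ p.length := (dist_le (p.dropUntil v hv)).trans (p.length_dropUntil_le_length hv)
  have h2 : p.length = len S x := hp
  have h4 := hF v hvF
  omega

/-- the main step: a point far away lies in the same component as `z`, or ... -/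
lemma conn_far {F : Set G} {m : ℕ} (hF : ∀ g ∈ F, len S g ≤ m) {z : G}
    (hz : ∀ g, z * g = g * z) (hz2 : z * z = 1) (hzm : 2 * m < len S z) {x : G}
    (hx : m + len S z + len S z < len S x) : conn S F x z := by
  classical
  by_contra hcon
  let B : Set G := {g | len S g ≤ m}
  let B' : Set G := {g | len S (z * g) ≤ m}
  have hFB : F ⊆ B := hF
  have hdisj : ∀ g ∈ B, g ∉ B' := by
    intro g hg hg'
    have h1 : len S z ≤ len S (z * g) + len S g⁻¹ := by
      have := len_mul hconn (z * g) g⁻¹
      simpa using this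
    rw [len_inv hconn] at h1
    have h2 : len S g ≤ m := hg
    have h3 : len S (z * g) ≤ m := hg'
    omega
  have hzz : ∀ g, z * (z * g) = g := fun g => by rw [← mul_assoc, hz2, one_mul]
  -- points of `B'` are connected to `z` avoiding `B`
  have hB'z : ∀ g ∈ B', conn S B g z := by
    intro g hg
    have h1 : conn S B' (z * g) 1 := by
      apply conn_ball hconn (m := m) hg
      intro u hu
      by_contra hu'
      push Not at hu'
      exact hdisj u hu' hu
    have h2 := conn_mul_left (S := S) z (F := B') (F' := B) (g := z * g) (h := 1) (fun u hu => by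
      change len S (z * u) ≤ m
      exact hu) h1
    rwa [hzz, mul_one] at h2
  have hxB : x ∉ B := by
    intro h
    have : len S x ≤ m := h
    omega
  obtain ⟨q⟩ := hconn.preconnected x 1
  have h1B : (1 : G) ∈ B := by change len S 1 ≤ m; rw [len_one]; omega
  obtain ⟨a, b, ha, hb, hab, hxa⟩ := first_hit q hxB h1B
  -- `x` and `1` are connected outside `B'`
  have hxa' : conn S B' x a := by
    obtain ⟨p, hp⟩ := hxa
    refine ⟨p, fun v hv hvB' => hcon ?_⟩
    have h1 : conn S B x v := by
      refine ⟨p.takeUntil v hv, fun u hu => hp u ?_⟩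
      exact p.support_takeUntil_subset_support hv hu
    exact conn_mono hFB (conn_trans h1 (hB'z v hvB'))
  have hab' : conn S B' a b := conn_adj (conn_right hxa') (hdisj b hb) hab
  have hb1 : conn S B' b 1 := by
    apply conn_ball hconn (m := m) hb
    intro u hu
    by_contra hu'
    push Not at hu'
    exact hdisj u hu' hu
  have hx1 : conn S B' x 1 := conn_trans hxa' (conn_trans hab' hb1)
  -- `x` and `x * z` are connected outside `B ∪ B'`
  have hxz : conn S (B ∪ B') x (x * z) := by
    apply conn_short hconn (m := m + len S z) (by omega)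
    rintro g (hg | hg)
    · have : len S g ≤ m := hg
      omega
    · have h1 : len S (z * g) ≤ m := hg
      have h2 : len S g ≤ len S z + len S (z * g) := by
        have := len_mul hconn z (z * g)
        rwa [hzz] at this
      omega
  have hxz1 : conn S B' (x * z) 1 :=
    conn_trans (conn_symm (conn_mono Set.subset_union_right hxz)) hx1
  have h3 := conn_mul_left (S := S) z (F := B') (F' := B) (g := x * z) (h := 1) (fun u hu => by
      change len S (z * u) ≤ m
      exact hu) hxz1
  rw [mul_one, ← hz x, hzz] at h3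
  exact hcon (conn_mono hFB h3)

omit hconn in
/-- the ray of powers of an element of infinite order -/
lemma conn_pow {F : Set G} {c : G} (hc : c ∈ S) {k : ℕ} (hk : ∀ j, k ≤ j → c ^ j ∉ F)
    (hinj : Function.Injective fun j : ℕ => c ^ j) : ∀ j, k ≤ j → conn S F (c ^ k) (c ^ j) := by
  intro j hj
  induction j, hj using Nat.le_induction with
  | base => exact conn_refl (hk k le_rfl)
  | succ j hj ih =>
    refine conn_trans ih (conn_adj (hk j hj) (hk (j + 1) (by omega)) ⟨?_, c, hc, Or.inl ?_⟩)
    · intro h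
      have := hinj h
      omega
    · rw [pow_succ]

theorem oneEnded_of {c : G} (hc : c ∈ S) (hinj : Function.Injective fun j : ℕ => c ^ j)
    (hz : ∀ m : ℕ, ∃ z : G, (∀ g, z * g = g * z) ∧ z * z = 1 ∧ m < len S z) :
    OneEnded S := by
  classical
  refine ⟨Infinite.of_injective _ hinj, fun F => ?_⟩
  -- a bound for `F`
  obtain ⟨m, hm⟩ : ∃ m, ∀ g ∈ (F : Set G), len S g ≤ m :=
    ⟨F.sup (len S), fun g hg => Finset.le_sup (f := len S) hg⟩
  obtain ⟨z, hzc, hz2, hzm⟩ := hz (2 * m)
  have hzF : z ∉ (F : Set G) := fun h => by have := hm z h; omega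
  refine ⟨((cayley S).induce ((F : Set G)ᶜ)).connectedComponentMk ⟨z, hzF⟩, ?_, ?_⟩
  · -- existence: the ray
    obtain ⟨k, hk⟩ : ∃ k, ∀ j, k ≤ j → c ^ j ∉ (F : Set G) := by
      refine ⟨(F.preimage (fun j : ℕ => c ^ j) hinj.injOn).sup id + 1, fun j hj hjF => ?_⟩
      have h1 : j ∈ F.preimage (fun j : ℕ => c ^ j) hinj.injOn := by
        rw [Finset.mem_preimage]; exact hjF
      have h2 := Finset.le_sup (f := id) h1
      simp only [id] at h2
      omega
    -- the ray contains a point far away
    have hray := conn_pow hc hk hinj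
    have hinf : {j : ℕ | k ≤ j}.Infinite := Set.infinite_of_not_bddAbove (by
      rintro ⟨b, hb⟩
      have h1 := hb (show (k + b + 1 : ℕ) ∈ {j : ℕ | k ≤ j} by simp; omega)
      omega)
    have himg : ((fun j : ℕ => c ^ j) '' {j : ℕ | k ≤ j}).Infinite :=
      hinf.image hinj.injOn
    obtain ⟨x, ⟨j, hj, rfl⟩, hx2⟩ := himg.exists_notMem_finite
      (ball_finite hconn (m + len S z + len S z))
    simp only [Set.mem_ofPred_eq, not_le] at hx2 hj
    have h5 := conn_far hconn hm hzc hz2 hzm hx2
    -- each point of the ray is in the component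
    have hall : ∀ i (hi : k ≤ i), (⟨c ^ i, hk i hi⟩ : ((F : Set G)ᶜ : Set G)) ∈
        (((cayley S).induce ((F : Set G)ᶜ)).connectedComponentMk ⟨z, hzF⟩).supp := by
      intro i hi
      rw [ConnectedComponent.mem_supp_iff, ConnectedComponent.eq]
      rw [← conn_iff_reachable (hk i hi) hzF]
      exact conn_trans (conn_symm (hray i hi)) (conn_trans (hray j hj) h5)
    refine Set.Infinite.mono (s := Set.range
      (fun i : {i : ℕ // k ≤ i} => (⟨c ^ i.1, hk i.1 i.2⟩ : ((F : Set G)ᶜ : Set G)))) ?_ ?_
    · rintro _ ⟨i, rfl⟩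
      exact hall i.1 i.2
    · have : Infinite {i : ℕ // k ≤ i} := hinf.to_subtype
      apply Set.infinite_range_of_injective
      intro i i' hii'
      have := congrArg Subtype.val hii'
      exact Subtype.ext (hinj this)
  · intro C hC
    have himg : ((fun x : ((F : Set G)ᶜ : Set G) => (x : G)) '' C.supp).Infinite :=
      hC.image (Subtype.val_injective.injOn)
    obtain ⟨x, ⟨⟨y, hy⟩, hyC, rfl⟩, hx2⟩ := himg.exists_notMem_finite
      (ball_finite hconn (m + len S z + len S z))
    simp only [Set.mem_ofPred_eq, not_le] at hx2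
    have h5 := conn_far hconn hm hzc hz2 hzm hx2
    rw [conn_iff_reachable hy hzF] at h5
    rw [ConnectedComponent.mem_supp_iff] at hyC
    rw [← hyC]
    exact ConnectedComponent.eq.2 h5

/-! ### The thickness -/

omit hconn in
lemma infComp_of_conn {n : ℕ} {u v : G} (hu : u ∈ infComp S n)
    (h : conn S (outside S n)ᶜ u v) : v ∈ infComp S n := by
  obtain ⟨hu1, hu2⟩ := hu
  have hv : v ∈ outside S n := by
    have := conn_right h
    simpa using this
  refine ⟨hv, ?_⟩
  rw [conn_iff_reachable' hu1 hv] at h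
  rwa [ConnectedComponent.eq.2 h.symm]

lemma conn_of_infComp (hOE : OneEnded S) {n : ℕ} {u v : G} (hu : u ∈ infComp S n)
    (hv : v ∈ infComp S n) : conn S (outside S n)ᶜ u v := by
  classical
  obtain ⟨hu1, hu2⟩ := hu
  obtain ⟨hv1, hv2⟩ := hv
  have hfin : {g | len S g < n}.Finite :=
    (ball_finite hconn n).subset fun g hg => by
      simp only [Set.mem_ofPred_eq] at hg ⊢; omega
  have h1 := hOE.2 hfin.toFinset
  have h2 : ((hfin.toFinset : Set G)ᶜ) = outside S n := by
    ext g
    simp [outside]
  rw [h2] at h1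
  rw [conn_iff_reachable' hu1 hv1]
  exact ConnectedComponent.eq.1 (h1.unique hu2 hv2)

/-- the thickness is finite -/
lemma exists_connected (hOE : OneEnded S) {n : ℕ} {u₀ : G} (h₀ : u₀ ∈ infComp S n) :
    ∃ r, ((cayley S).induce (sphInf S n r)).Connected := by
  classical
  -- each point of the infinite component is connected with `u₀` inside `sphInf S n r`, for large `r`
  have h1 : ∀ u ∈ infComp S n, ∃ R, ∀ r, R ≤ r → conn S (sphInf S n r)ᶜ u u₀ := by
    intro u hu
    obtain ⟨p, hp⟩ := conn_of_infComp hconn hOE hu h₀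
    refine ⟨p.support.toFinset.sup (len S), fun r hr => ⟨p, fun v hv => ?_⟩⟩
    have h2 : v ∈ infComp S n := by
      apply infComp_of_conn hu
      exact ⟨p.takeUntil v hv, fun w hw => hp w (p.support_takeUntil_subset_support hv hw)⟩
    have h3 : len S v ≤ p.support.toFinset.sup (len S) :=
      Finset.le_sup (f := len S) (List.mem_toFinset.2 hv)
    rw [Set.mem_compl_iff, not_not]
    exact ⟨by omega, h2⟩
  choose! R hR using h1
  let T : Finset G := (ball_finite hconn n).toFinset
  let r := max (T.sup R) (len S u₀)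
  refine ⟨r, ?_⟩
  have hmono : ∀ g ∈ sphInf S n r, conn S (sphInf S n r)ᶜ g u₀ := by
    intro g hg
    obtain ⟨k, hk⟩ : ∃ k, len S g = n + k := by
      have : n ≤ len S g := hg.2.choose
      exact ⟨len S g - n, by omega⟩
    induction k generalizing g with
    | zero =>
      apply hR g hg.2
      have : R g ≤ T.sup R := Finset.le_sup (f := R) (by
        simp only [T, Set.Finite.mem_toFinset, Set.mem_ofPred_eq]; omega)
      exact this.trans (le_max_left _ _)
    | succ k ih =>
      obtain ⟨p, hp⟩ := hconn.exists_walk_length_eq_dist g 1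
      cases p with
      | nil => simp [len_one] at hk
      | @cons _ v _ hadj p =>
        have hv1 : len S v ≤ p.length := dist_le p
        have hv2 : len S g = p.length + 1 := by unfold len; rw [← hp]; simp
        have hv3 : len S g ≤ len S v + 1 := len_adj hconn hadj.symm
        have hv4 : len S v = n + k := by omega
        have hgo : g ∉ (outside S n)ᶜ := by
          rw [Set.mem_compl_iff, not_not]; exact hg.2.choose
        have hvo : v ∉ (outside S n)ᶜ := by
          rw [Set.mem_compl_iff, not_not]; change n ≤ len S v; omega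
        have hvI : v ∈ infComp S n := infComp_of_conn hg.2 (conn_adj hgo hvo hadj)
        have hvS : v ∈ sphInf S n r := ⟨by have := hg.1; omega, hvI⟩
        exact conn_trans (conn_adj (by simpa using hg) (by simpa using hvS) hadj)
          (ih v hvS hv4)
  have h₀' : u₀ ∈ sphInf S n r := ⟨by have := le_max_right (T.sup R) (len S u₀); omega, h₀⟩
  have : Nonempty (sphInf S n r : Set G) := ⟨⟨u₀, h₀'⟩⟩
  refine Connected.mk ?_
  rintro ⟨x, hx⟩ ⟨y, hy⟩
  rw [← conn_iff_reachable' hx hy]
  exact conn_trans (hmono x hx) (conn_symm (hmono y hy))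

/-- points on rays lie in the infinite component -/
lemma ray_mem {c : G} (hc : c ∈ S) (hlen : ∀ k : ℕ, k ≤ len S (c ^ k)) (n : ℕ) :
    c ^ n ∈ infComp S n ∧ len S (c ^ n) ≤ n := by
  have hle : ∀ k, len S (c ^ k) ≤ k := by
    intro k
    induction k with
    | zero => simp [len_one]
    | succ k ih =>
      rw [pow_succ]
      have := len_mul hconn (c ^ k) c
      have := len_gen hc
      omega
  have hinj : Function.Injective fun j : ℕ => c ^ j := by
    intro i j hij
    have h1 := hlen i
    have h2 := hle i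
    have h3 := hlen j
    have h4 := hle j
    simp only at hij
    rw [hij] at h1 h2
    omega
  have hk : ∀ j, n ≤ j → c ^ j ∉ (outside S n)ᶜ := by
    intro j hj
    rw [Set.mem_compl_iff, not_not]
    change n ≤ len S (c ^ j)
    have := hlen j
    omega
  have hk' : ∀ j, n ≤ j → c ^ j ∈ outside S n := fun j hj => by simpa using hk j hj
  refine ⟨⟨hk' n le_rfl, ?_⟩, hle n⟩
  refine Set.Infinite.mono (s := Set.range
      (fun i : {i : ℕ // n ≤ i} => (⟨c ^ i.1, hk' i.1 i.2⟩ : outside S n))) ?_ ?_
  · rintro _ ⟨i, rfl⟩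
    rw [ConnectedComponent.mem_supp_iff, ConnectedComponent.eq, ← conn_iff_reachable']
    exact conn_symm (conn_pow hc hk hinj i.1 i.2)
  · have hinf : {j : ℕ | n ≤ j}.Infinite := Set.infinite_of_not_bddAbove (by
      rintro ⟨b, hb⟩
      have h1 := hb (show (n + b + 1 : ℕ) ∈ {j : ℕ | n ≤ j} by simp; omega)
      omega)
    have : Infinite {i : ℕ // n ≤ i} := hinf.to_subtype
    apply Set.infinite_range_of_injective
    intro i i' hii'
    have := congrArg Subtype.val hii'
    exact Subtype.ext (hinj this)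

theorem th_gt (hOE : OneEnded S) {c t : G} (hc : c ∈ S) (ht : t ∈ S)
    (hlc : ∀ k : ℕ, k ≤ len S (c ^ k)) (hlt : ∀ k : ℕ, k ≤ len S (t ^ k))
    (P : G → Prop) (Z : Set G)
    (hP : ∀ g h, (cayley S).Adj g h → g ∉ Z → h ∉ Z → P g → P h)
    {n N : ℕ} (hPt : P (t ^ n)) (hPc : ¬ P (c ^ n)) (φ : ℕ) (hφ : n + φ ≤ N)
    (hgap : ∀ z ∈ Z, len S z < n ∨ N < len S z) : φ < th S n := by
  have h1 := ray_mem hconn hc hlc n
  have h2 := ray_mem hconn ht hlt n
  have hne : {r : ℕ | ((cayley S).induce (sphInf S n r)).Connected}.Nonempty :=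
    exists_connected hconn hOE h1.1
  have h3 := Nat.sInf_mem hne
  change ((cayley S).induce (sphInf S n (th S n))).Connected at h3
  by_contra hcon
  push Not at hcon
  have hc' : c ^ n ∈ sphInf S n (th S n) := ⟨by omega, h1.1⟩
  have ht' : t ^ n ∈ sphInf S n (th S n) := ⟨by omega, h2.1⟩
  have h4 := h3.preconnected ⟨t ^ n, ht'⟩ ⟨c ^ n, hc'⟩
  rw [← conn_iff_reachable'] at h4
  obtain ⟨p, hp⟩ := h4
  have hZ : ∀ v ∈ p.support, v ∉ Z := by
    intro v hv hvZ
    have h5 := hp v hv
    rw [Set.mem_compl_iff, not_not] at h5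
    have h6 : n ≤ len S v := h5.2.choose
    have h7 := h5.1
    rcases hgap v hvZ with h8 | h8 <;> omega
  have key : ∀ (u v : G) (p : (cayley S).Walk u v), (∀ w ∈ p.support, w ∉ Z) → P u → P v := by
    intro u v p
    induction p with
    | nil => intro _ h; exact h
    | @cons u v w h p ih =>
      intro hZ hu
      apply ih
      · intro x hx; exact hZ x (by rw [Walk.support_cons]; exact List.mem_cons_of_mem _ hx)
      · refine hP u v h (hZ u (by simp)) (hZ v ?_) hu
        rw [Walk.support_cons]
        exact List.mem_cons_of_mem _ p.start_mem_support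
  exact hPc (key _ _ p hZ hPt)

end general

/-- a Cayley graph is connected when `S` generates -/
lemma connected_of_closure {G : Type} [Group G] {S : Finset G}
    (h : Subgroup.closure (S : Set G) = ⊤) : (cayley S).Connected := by
  have hmul : ∀ (x g h : G), (cayley S).Reachable g h → (cayley S).Reachable (x * g) (x * h) := by
    rintro x g h ⟨p⟩
    exact ⟨p.map (lmul S x)⟩
  let K : Subgroup G :=
    { carrier := {g | (cayley S).Reachable 1 g}
      one_mem' := Reachable.refl _
      mul_mem' := by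
        intro a b ha hb
        have := hmul a 1 b hb
        rw [mul_one] at this
        exact ha.trans this
      inv_mem' := by
        intro a ha
        have := hmul a⁻¹ 1 a ha
        rw [mul_one, inv_mul_cancel] at this
        exact this.symm }
  have hK : K = ⊤ := by
    rw [eq_top_iff, ← h, Subgroup.closure_le]
    intro s hs
    change (cayley S).Reachable 1 s
    by_cases hs1 : s = 1
    · rw [hs1]
    · have : (cayley S).Adj 1 s := ⟨fun h => hs1 h.symm, s, hs, Or.inl (by simp)⟩
      exact this.reachable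
  have hall : ∀ g, (cayley S).Reachable 1 g := by
    intro g
    have : g ∈ K := by rw [hK]; trivial
    exact this
  have : Nonempty G := ⟨1⟩
  exact Connected.mk fun g h => (hall g).symm.trans (hall h)

/-! ### The example -/

open LaurentPolynomial

/-- Laurent polynomials over the field with two elements. -/
abbrev R := LaurentPolynomial (ZMod 2)

lemma coeff_mul_T (f : R) (p n : ℤ) : (f * T p).coeff n = f.coeff (n - p) := by
  have := AddMonoidAlgebra.coeff_mul_single_eq_coeff_mul (R := ZMod 2) (M := ℤ) (x := f)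
    (r := 1) (m := p) (m₁ := n) (n - p) (by intro m' _; constructor <;> intro h <;> omega)
  rw [mul_one] at this
  exact this

/-- the group `(R × R) ⋊ ℤ` -/
@[ext] structure L where
  f : R
  g : R
  p : ℤ

namespace L

instance : Mul L := ⟨fun x y => ⟨x.f + T (-x.p) * y.f, x.g + T x.p * y.g, x.p + y.p⟩⟩
instance : One L := ⟨⟨0, 0, 0⟩⟩
instance : Inv L := ⟨fun x => ⟨-(T x.p * x.f), -(T (-x.p) * x.g), -x.p⟩⟩

lemma mul_def (x y : L) :
    x * y = ⟨x.f + T (-x.p) * y.f, x.g + T x.p * y.g, x.p + y.p⟩ := rfl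
lemma one_def : (1 : L) = ⟨0, 0, 0⟩ := rfl
lemma inv_def (x : L) : x⁻¹ = ⟨-(T x.p * x.f), -(T (-x.p) * x.g), -x.p⟩ := rfl

instance : Group L := Group.ofLeftAxioms
  (by
    intro x y z
    simp only [mul_def, L.mk.injEq]
    refine ⟨?_, ?_, by ring⟩
    · rw [neg_add, T_add]; ring
    · rw [T_add]; ring)
  (by
    intro x
    simp [mul_def, one_def])
  (by
    intro x
    simp only [mul_def, one_def, inv_def, L.mk.injEq]
    refine ⟨?_, ?_, by ring⟩
    · rw [neg_neg]; ring
    · ring)

end L

variable (κ : ℕ ↪ ℤ)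

/-- the coefficients with indices `κ j` -/
noncomputable def θ : R →+ (ℕ →₀ ZMod 2) where
  toFun f := Finsupp.comapDomain κ f.coeff κ.injective.injOn
  map_zero' := by ext; simp
  map_add' x y := by ext; simp

lemma θ_apply (f : R) (j : ℕ) : θ κ f j = f.coeff (κ j) := by
  simp [θ]

/-- the cocycle -/
noncomputable def β (x y : L) : ℕ →₀ ZMod 2 := θ κ (x.f * (T x.p * y.g))

lemma β_cocycle (x y z : L) : β κ x y + β κ (x * y) z = β κ y z + β κ x (y * z) := by
  simp only [β, L.mul_def]
  rw [← map_add, ← map_add]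
  congr 1
  have h1 : (T (-x.p) * T (x.p + y.p) : R) = T y.p := by rw [← T_add]; congr 1; ring
  have h2 : (T x.p * T y.p : R) = T (x.p + y.p) := by rw [← T_add]
  linear_combination y.f * z.g * h1 - x.f * z.g * h2

lemma β_one_left (y : L) : β κ 1 y = 0 := by
  simp [β, L.one_def]

lemma β_one_right (x : L) : β κ x 1 = 0 := by
  simp [β, L.one_def]

/-- the free product of two copies of `L` -/
abbrev W := Monoid.CoprodI (fun _ : Bool => L)

/-- the fold map -/
def fold : W →* L := Monoid.CoprodI.lift (fun _ => MonoidHom.id L)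

/-- the inclusion of the `i`-th copy -/
abbrev incl (i : Bool) : L →* W := Monoid.CoprodI.of (M := fun _ : Bool => L) (i := i)

@[simp] lemma fold_incl (i : Bool) (x : L) : fold (incl i x) = x := by
  simp [fold, incl]

/-- the group of the example, a central extension of the free product `L * L` -/
@[ext] structure E (κ : ℕ ↪ ℤ) where
  w : W
  v : ℕ →₀ ZMod 2

namespace E

variable {κ}

noncomputable instance : Mul (E κ) := ⟨fun x y => ⟨x.w * y.w, x.v + y.v + β κ (fold x.w) (fold y.w)⟩⟩
noncomputable instance : One (E κ) := ⟨⟨1, 0⟩⟩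
noncomputable instance : Inv (E κ) := ⟨fun x => ⟨x.w⁻¹, -x.v - β κ (fold x.w)⁻¹ (fold x.w)⟩⟩

lemma mul_def (x y : E κ) :
    x * y = ⟨x.w * y.w, x.v + y.v + β κ (fold x.w) (fold y.w)⟩ := rfl
lemma one_def : (1 : E κ) = ⟨1, 0⟩ := rfl
lemma inv_def (x : E κ) : x⁻¹ = ⟨x.w⁻¹, -x.v - β κ (fold x.w)⁻¹ (fold x.w)⟩ := rfl

noncomputable instance : Group (E κ) := Group.ofLeftAxioms
  (by
    intro x y z
    simp only [mul_def, E.mk.injEq, mul_assoc, true_and, map_mul]
    have := β_cocycle κ (fold x.w) (fold y.w) (fold z.w)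
    rw [show x.v + y.v + β κ (fold x.w) (fold y.w) + z.v + β κ (fold x.w * fold y.w) (fold z.w)
      = x.v + y.v + z.v + (β κ (fold x.w) (fold y.w) + β κ (fold x.w * fold y.w) (fold z.w)) by abel,
      this]
    abel)
  (by
    intro x
    simp [mul_def, one_def, β_one_left])
  (by
    intro x
    simp only [mul_def, one_def, inv_def, E.mk.injEq, inv_mul_cancel, true_and, map_inv]
    abel)

end E

/-! ### Generators -/

/-- the three generators of `L` -/
def La : L := ⟨1, 0, 0⟩
/-- the three generators of `L` -/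
def Lb : L := ⟨0, 1, 0⟩
/-- the three generators of `L` -/
def Lt : L := ⟨0, 0, 1⟩

lemma Lt_zpow (k : ℤ) : Lt ^ k = ⟨0, 0, k⟩ := by
  have hnat : ∀ k : ℕ, Lt ^ k = ⟨0, 0, k⟩ := by
    intro k
    induction k with
    | zero => simp [L.one_def]
    | succ k ih =>
      rw [pow_succ, ih]
      simp [L.mul_def, Lt]
  obtain ⟨k, rfl | rfl⟩ := k.eq_nat_or_neg
  · rw [zpow_natCast, hnat]
  · rw [zpow_neg, zpow_natCast, hnat]
    simp [L.inv_def]

lemma L_gen (K : Subgroup L) (ha : La ∈ K) (hb : Lb ∈ K) (ht : Lt ∈ K) : K = ⊤ := by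
  have htz : ∀ k : ℤ, (⟨0, 0, k⟩ : L) ∈ K := fun k => by
    rw [← Lt_zpow]; exact K.zpow_mem ht k
  have hf : ∀ f : R, (⟨f, 0, 0⟩ : L) ∈ K := by
    intro f
    induction f using LaurentPolynomial.induction_on' with
    | add p q hp hq =>
      have := K.mul_mem hp hq
      simpa [L.mul_def] using this
    | C_mul_T n a =>
      have h2 : ∀ a : ZMod 2, a = 0 ∨ a = 1 := by decide
      rcases h2 a with rfl | rfl
      · rw [map_zero, zero_mul]; exact K.one_mem
      · have := K.mul_mem (K.mul_mem (htz (-n)) ha) (htz n)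
        simpa [L.mul_def, La] using this
  have hg : ∀ f : R, (⟨0, f, 0⟩ : L) ∈ K := by
    intro f
    induction f using LaurentPolynomial.induction_on' with
    | add p q hp hq =>
      have := K.mul_mem hp hq
      simpa [L.mul_def] using this
    | C_mul_T n a =>
      have h2 : ∀ a : ZMod 2, a = 0 ∨ a = 1 := by decide
      rcases h2 a with rfl | rfl
      · rw [map_zero, zero_mul]; exact K.one_mem
      · have := K.mul_mem (K.mul_mem (htz n) hb) (htz (-n))
        simpa [L.mul_def, Lb] using this
  rw [eq_top_iff]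
  rintro ⟨f, g, p⟩ -
  have := K.mul_mem (K.mul_mem (hf f) (hg g)) (htz p)
  simpa [L.mul_def] using this

variable {κ}

/-- lift of an element of the `i`-th copy of `L` -/
def lft (κ : ℕ ↪ ℤ) (i : Bool) (x : L) : E κ := ⟨incl i x, 0⟩

lemma lft_mul (i : Bool) (x y : L) :
    lft κ i x * lft κ i y = ⟨incl i (x * y), β κ x y⟩ := by
  simp [lft, E.mul_def]

/-- central elements -/
def cen (v : ℕ →₀ ZMod 2) : E κ := ⟨1, v⟩

lemma cen_comm (v : ℕ →₀ ZMod 2) (g : E κ) : cen v * g = g * cen v := by
  simp [cen, E.mul_def, β_one_left, β_one_right, add_comm]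

lemma cen_mul (v v' : ℕ →₀ ZMod 2) : (cen v * cen v' : E κ) = cen (v + v') := by
  simp [cen, E.mul_def, β_one_left]

lemma cen_sq (v : ℕ →₀ ZMod 2) : (cen v * cen v : E κ) = 1 := by
  rw [cen_mul]
  have : v + v = 0 := by
    ext j
    have : ∀ a : ZMod 2, a + a = 0 := by decide
    simp [this]
  rw [this]; rfl

open Classical in
/-- the six generators -/
def gens (κ : ℕ ↪ ℤ) : Finset (E κ) :=
  {lft κ true La, lft κ true Lb, lft κ true Lt, lft κ false La, lft κ false Lb, lft κ false Lt}

lemma mem_gens {g : E κ} : g ∈ gens κ ↔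
    ∃ i : Bool, ∃ x : L, (x = La ∨ x = Lb ∨ x = Lt) ∧ g = lft κ i x := by
  simp only [gens, Finset.mem_insert, Finset.mem_singleton]
  constructor
  · rintro (h | h | h | h | h | h)
    · exact ⟨true, _, Or.inl rfl, h⟩
    · exact ⟨true, _, Or.inr (Or.inl rfl), h⟩
    · exact ⟨true, _, Or.inr (Or.inr rfl), h⟩
    · exact ⟨false, _, Or.inl rfl, h⟩
    · exact ⟨false, _, Or.inr (Or.inl rfl), h⟩
    · exact ⟨false, _, Or.inr (Or.inr rfl), h⟩
  · rintro ⟨i, x, (rfl | rfl | rfl), rfl⟩ <;> cases i <;> simp

lemma lft_t_pow (i : Bool) (k : ℕ) : (lft κ i Lt) ^ k = lft κ i (Lt ^ k) := by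
  induction k with
  | zero => simp [lft, E.one_def]
  | succ k ih =>
    rw [pow_succ, ih, lft_mul, pow_succ]
    have : β κ (Lt ^ k) Lt = 0 := by
      rw [← zpow_natCast, Lt_zpow]; simp [β]
    rw [this]; rfl

/-- the commutator identity -/
lemma comm_identity (k : ℕ) :
    (cen (θ κ (T (k : ℤ))) : E κ) =
      lft κ true La * ((lft κ true Lt) ^ k * lft κ true Lb * ((lft κ true Lt) ^ k)⁻¹) *
      (lft κ true La)⁻¹ * ((lft κ true Lt) ^ k * lft κ true Lb * ((lft κ true Lt) ^ k)⁻¹)⁻¹ := by
  set Y : E κ := (lft κ true Lt) ^ k * lft κ true Lb * ((lft κ true Lt) ^ k)⁻¹ with hY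
  have hYv : Y = lft κ true ⟨0, T (k : ℤ), 0⟩ := by
    rw [hY, mul_inv_eq_iff_eq_mul, lft_t_pow, lft_mul, lft_mul]
    rw [← zpow_natCast, Lt_zpow]
    simp [β, L.mul_def, Lb]
  rw [eq_mul_inv_iff_mul_eq, eq_mul_inv_iff_mul_eq, hYv]
  rw [mul_assoc, lft_mul, lft_mul]
  have h1 : (⟨0, T (k : ℤ), 0⟩ : L) * La = La * ⟨0, T (k : ℤ), 0⟩ := by
    rw [L.mul_def, L.mul_def]
    simp only [La, L.mk.injEq]
    refine ⟨?_, ?_, trivial⟩
    · simp
    · simp
  have h2 : β κ ⟨0, T (k : ℤ), 0⟩ La = 0 := by
    unfold β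
    rw [zero_mul, map_zero]
  have h3 : β κ La ⟨0, T (k : ℤ), 0⟩ = θ κ (T (k : ℤ)) := by
    unfold β La
    rw [T_zero, one_mul, one_mul]
  rw [h1, h2, h3, cen, E.mul_def]
  simp only [map_one, β_one_left, add_zero, one_mul]

lemma lft_mem (i : Bool) {x : L} (hx : x = La ∨ x = Lb ∨ x = Lt) : lft κ i x ∈ gens κ :=
  mem_gens.2 ⟨i, x, hx, rfl⟩

lemma θ_single (j : ℕ) : θ κ (T (κ j)) = Finsupp.single j 1 := by
  ext i
  rw [θ_apply, T_apply, Finsupp.single_apply]
  simp

variable (hκ : ∀ j, 0 ≤ κ j)

include hκ in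
lemma cen_single_eq (j : ℕ) : (cen (Finsupp.single j 1) : E κ) =
      lft κ true La * ((lft κ true Lt) ^ (κ j).toNat * lft κ true Lb *
        ((lft κ true Lt) ^ (κ j).toNat)⁻¹) * (lft κ true La)⁻¹ *
      ((lft κ true Lt) ^ (κ j).toNat * lft κ true Lb * ((lft κ true Lt) ^ (κ j).toNat)⁻¹)⁻¹ := by
  rw [← comm_identity, Int.toNat_of_nonneg (hκ j), θ_single]

include hκ in
lemma closure_gens : Subgroup.closure (gens κ : Set (E κ)) = ⊤ := by
  set H := Subgroup.closure (gens κ : Set (E κ)) with hH
  have hgen : ∀ (i : Bool) {x : L} (hx : x = La ∨ x = Lb ∨ x = Lt), lft κ i x ∈ H :=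
    fun i x hx => Subgroup.subset_closure (lft_mem i hx)
  -- central elements
  have hcen1 : ∀ j, (cen (Finsupp.single j 1) : E κ) ∈ H := by
    intro j
    rw [cen_single_eq hκ]
    have ha := hgen true (x := La) (by simp)
    have hb := hgen true (x := Lb) (by simp)
    have ht := hgen true (x := Lt) (by simp)
    have hY := H.mul_mem (H.mul_mem (H.pow_mem ht (κ j).toNat) hb)
      (H.inv_mem (H.pow_mem ht (κ j).toNat))
    exact H.mul_mem (H.mul_mem (H.mul_mem ha hY) (H.inv_mem ha)) (H.inv_mem hY)
  have hcen : ∀ v, (cen v : E κ) ∈ H := by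
    intro v
    induction v using Finsupp.induction_linear with
    | zero => exact H.one_mem
    | add f g hf hg =>
      rw [← cen_mul]; exact H.mul_mem hf hg
    | single j a =>
      have h2 : ∀ a : ZMod 2, a = 0 ∨ a = 1 := by decide
      rcases h2 a with rfl | rfl
      · rw [Finsupp.single_zero]; exact H.one_mem
      · exact hcen1 j
  -- the projection to `W`
  let π : E κ →* W :=
    { toFun := fun g => g.w
      map_one' := rfl
      map_mul' := fun _ _ => rfl }
  have hK : ∀ (i : Bool) (x : L), incl i x ∈ H.map π := by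
    intro i x
    have : (H.map π).comap (incl i) = ⊤ := by
      apply L_gen
      · exact ⟨_, hgen i (x := La) (by simp), rfl⟩
      · exact ⟨_, hgen i (x := Lb) (by simp), rfl⟩
      · exact ⟨_, hgen i (x := Lt) (by simp), rfl⟩
    have hx : x ∈ (H.map π).comap (incl i) := by rw [this]; trivial
    exact hx
  have hW : ∀ w : W, w ∈ H.map π := by
    intro w
    induction w using Monoid.CoprodI.induction_on with
    | one => exact Subgroup.one_mem _
    | of i m => exact hK i m
    | mul x y hx hy => exact Subgroup.mul_mem _ hx hy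
  rw [eq_top_iff]
  rintro g -
  obtain ⟨h, hh, hw⟩ := hW g.w
  have h1 : h⁻¹ * g = cen (h⁻¹ * g).v := by
    ext1
    · change h.w⁻¹ * g.w = 1
      have : h.w = g.w := hw
      rw [this, inv_mul_cancel]
    · rfl
  have h2 : g = h * cen (h⁻¹ * g).v := by rw [← h1]; group
  rw [h2]
  exact H.mul_mem hh (hcen _)

include hκ in
lemma E_conn : (cayley (gens κ)).Connected := connected_of_closure (closure_gens hκ)

/-- the invariant of elements of length at most `l` -/
def Inv (l : ℕ) (g : E κ) : Prop :=
  |(fold g.w).p| ≤ l ∧ (∀ n, (fold g.w).f.coeff n ≠ 0 → |n| ≤ l) ∧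
    ∀ j, g.v j ≠ 0 → |κ j| ≤ 2 * l

/-- small elements of `L` -/
def Small (x : L) : Prop :=
  |x.p| ≤ 1 ∧ (∀ n, x.f.coeff n ≠ 0 → n = 0) ∧ (x.g = 0 ∨ x.g = 1)

lemma inv_step {l : ℕ} {g : E κ} (h : Inv l g) (i : Bool) {x : L} (hx : Small x) :
    Inv (l + 1) (g * lft κ i x) := by
  obtain ⟨h1, h2, h3⟩ := h
  obtain ⟨x1, x2, x3⟩ := hx
  have hw : fold (g * lft κ i x).w = fold g.w * x := by
    simp [E.mul_def, lft]
  refine ⟨?_, ?_, ?_⟩
  · rw [hw, L.mul_def]
    push_cast
    calc |(fold g.w).p + x.p| ≤ |(fold g.w).p| + |x.p| := abs_add_le _ _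
      _ ≤ _ := by omega
  · intro n hn
    rw [hw, L.mul_def] at hn
    simp only at hn
    rw [mul_comm (T _) x.f, AddMonoidAlgebra.coeff_add, Finsupp.add_apply, coeff_mul_T] at hn
    push_cast
    by_cases h4 : (fold g.w).f.coeff n = 0
    · rw [h4, zero_add] at hn
      have h5 := x2 _ hn
      have : n = -(fold g.w).p := by omega
      rw [this, abs_neg]; omega
    · have := h2 n h4
      omega
  · intro j hj
    have hv : (g * lft κ i x).v = g.v + β κ (fold g.w) x := by
      simp [E.mul_def, lft]
    rw [hv, Finsupp.add_apply] at hj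
    push_cast
    by_cases h4 : g.v j = 0
    · rw [h4, zero_add] at hj
      rcases x3 with x3 | x3
      · exact absurd (by simp [β, x3]) hj
      · unfold β at hj
        rw [x3, mul_one, θ_apply, coeff_mul_T] at hj
        have h5 := h2 _ hj
        have h6 : |κ j| ≤ |κ j - (fold g.w).p| + |(fold g.w).p| := by
          have := abs_add_le (κ j - (fold g.w).p) (fold g.w).p
          simpa using this
        omega
    · have := h3 j h4
      omega

lemma small_gen {x : L} (hx : x = La ∨ x = Lb ∨ x = Lt) : Small x ∧ Small x⁻¹ := by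
  have h1 : (-1 : R) = 1 := by
    have : (2 : R) = 0 := by
      have h2 : (C (2 : ZMod 2) : R) = 0 := by
        rw [show (2 : ZMod 2) = 0 from rfl, map_zero]
      exact (map_ofNat C 2).symm.trans h2
    linear_combination (-1 : R) * this
  have h2 : ∀ n : ℤ, (1 : R).coeff n ≠ 0 → n = 0 := by
    intro n hn
    rw [← T_zero, T_apply] at hn
    by_contra h
    exact hn (if_neg (fun h' => h h'.symm))
  have h3 : ∀ n : ℤ, (0 : R).coeff n ≠ 0 → n = 0 := by
    intro n hn
    exact absurd rfl hn
  rcases hx with rfl | rfl | rfl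
  · refine ⟨⟨by simp [La], h2, Or.inl rfl⟩, ?_⟩
    have : La⁻¹ = La := by
      rw [L.inv_def]; simp only [La, L.mk.injEq]
      refine ⟨?_, ?_, by simp⟩
      · rw [T_zero, one_mul, h1]
      · simp
    rw [this]
    exact ⟨by simp [La], h2, Or.inl rfl⟩
  · refine ⟨⟨by simp [Lb], h3, Or.inr rfl⟩, ?_⟩
    have : Lb⁻¹ = Lb := by
      rw [L.inv_def]; simp only [Lb, L.mk.injEq]
      refine ⟨by simp, ?_, by simp⟩
      rw [neg_zero, T_zero, one_mul, h1]
    rw [this]
    exact ⟨by simp [Lb], h3, Or.inr rfl⟩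
  · refine ⟨⟨by simp [Lt], h3, Or.inl rfl⟩, ?_⟩
    have : Lt⁻¹ = ⟨0, 0, -1⟩ := by
      rw [L.inv_def]; simp [Lt]
    rw [this]
    exact ⟨by simp, h3, Or.inl rfl⟩

lemma lft_inv (i : Bool) {x : L} (hx : x = La ∨ x = Lb ∨ x = Lt) :
    (lft κ i x)⁻¹ = lft κ i x⁻¹ := by
  rw [inv_eq_iff_mul_eq_one, lft_mul, mul_inv_cancel]
  have : β κ x x⁻¹ = 0 := by
    rcases hx with rfl | rfl | rfl
    · simp [β, La, L.inv_def]
    · simp [β, Lb]
    · simp [β, Lt]
  rw [this, map_one]; rfl

include hκ in
lemma inv_len (g : E κ) : Inv (len (gens κ) g) g := by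
  apply len_induct (E_conn hκ) Inv
  · refine ⟨by simp [E.one_def, L.one_def], ?_, ?_⟩
    · intro n hn
      simp [E.one_def, L.one_def] at hn
    · intro j hj
      simp [E.one_def] at hj
  · rintro l g h hg ⟨-, s, hs, hh⟩
    obtain ⟨i, x, hx, rfl⟩ := mem_gens.1 hs
    rcases hh with rfl | hh
    · exact inv_step hg i (small_gen hx).1
    · have : h = g * lft κ i x⁻¹ := by
        rw [← lft_inv i hx, hh]; group
      rw [this]
      exact inv_step hg i (small_gen hx).2

/-! ### The separation property of the free product -/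

section separation

open Monoid.CoprodI

local instance : DecidableEq L := Classical.decEq L

/-- the index of the last syllable -/
def lastIdx (u : W) : Option Bool := ((Word.equiv u).toList.getLast?).map Sigma.fst

lemma lastIdx_rcons {i : Bool} (p : Word.Pair (fun _ : Bool => L) i)
    (h : (Word.rcons p).toList ≠ []) :
    ((Word.rcons p).toList.getLast?).map Sigma.fst =
      if p.tail.toList = [] then some i else (p.tail.toList.getLast?).map Sigma.fst := by
  unfold Word.rcons at h ⊢
  split_ifs at h ⊢ with h1 h2 h2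
  · exact absurd h2 h
  · rfl
  · simp [h2]
  · simp only [Word.cons_toList]
    obtain ⟨l, a, hl⟩ := List.exists_cons_of_ne_nil h2
    rw [hl, List.getLast?_cons_cons]

lemma equiv_ne {u : W} (h : u ≠ 1) : (Word.equiv u).toList ≠ [] := by
  intro h1
  apply h
  apply Word.equiv.injective
  apply Word.ext
  rw [h1]
  change [] = ((1 : W) • (Word.empty : Word (fun _ : Bool => L))).toList
  rw [one_smul]; rfl

lemma lastIdx_of_mul {u : W} {i : Bool} {m : L} (hu : u ≠ 1) (hmu : incl i m * u ≠ 1) :
    lastIdx (incl i m * u) = lastIdx u := by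
  have h1 := equiv_ne hu
  have h2 := equiv_ne hmu
  have h3 : Word.equiv (incl i m * u) = Word.rcons
      { Word.equivPair i (Word.equiv u) with head := m * (Word.equivPair i (Word.equiv u)).head } := by
    change (incl i m * u) • (Word.empty : Word (fun _ : Bool => L)) = _
    rw [mul_smul]
    rfl
  have h4 : Word.equiv u = Word.rcons (Word.equivPair i (Word.equiv u)) := by
    rw [← Word.equivPair_symm, Equiv.symm_apply_apply]
  unfold lastIdx
  rw [h3] at h2 ⊢
  rw [lastIdx_rcons _ h2]
  rw [h4] at h1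
  conv_rhs => rw [h4]
  rw [lastIdx_rcons _ h1]

lemma lastIdx_incl {i : Bool} {m : L} (hm : m ≠ 1) : lastIdx (incl i m) = some i := by
  have hne : incl i m ≠ 1 := by
    intro h
    apply hm
    have h1 := congrArg fold h
    rwa [fold_incl, map_one] at h1
  have h2 := equiv_ne hne
  have h3 : Word.equiv (incl i m) = Word.rcons
      { Word.equivPair i (Word.empty : Word (fun _ : Bool => L)) with
        head := m * (Word.equivPair i (Word.empty : Word (fun _ : Bool => L))).head } := rfl
  unfold lastIdx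
  rw [h3] at h2 ⊢
  rw [lastIdx_rcons _ h2]
  rw [if_pos]
  rw [Word.equivPair_eq_of_fstIdx_ne (by simp [Word.fstIdx, Word.empty])]
  rfl

/-- the separating predicate -/
def P (g : E κ) : Prop := lastIdx g.w⁻¹ = some true

lemma P_adj {g h : E κ} (H : (cayley (gens κ)).Adj g h) (hg : g.w ≠ 1) (hh : h.w ≠ 1)
    (hP : P g) : P h := by
  obtain ⟨-, s, hs, h1⟩ := H
  obtain ⟨i, x, hx, rfl⟩ := mem_gens.1 hs
  have key : ∃ m : L, h.w⁻¹ = incl i m * g.w⁻¹ := by
    rcases h1 with h1 | h1
    · refine ⟨x⁻¹, ?_⟩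
      rw [h1]
      change (g.w * incl i x)⁻¹ = _
      rw [mul_inv_rev, map_inv]
    · refine ⟨x, ?_⟩
      rw [h1]
      change _ = incl i x * (h.w * incl i x)⁻¹
      rw [mul_inv_rev, mul_inv_cancel_left]
  obtain ⟨m, hm⟩ := key
  unfold P at hP ⊢
  rw [hm, lastIdx_of_mul, hP]
  · simpa using hg
  · rw [← hm]; simpa using hh

end separation

lemma Lt_pow_ne {n : ℕ} (hn : 1 ≤ n) : Lt ^ n ≠ 1 := by
  intro h
  rw [← zpow_natCast, Lt_zpow, L.one_def] at h
  have := congrArg L.p h
  simp only at this
  omega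

lemma P_t {n : ℕ} (hn : 1 ≤ n) : P ((lft κ true Lt) ^ n) := by
  unfold P
  rw [lft_t_pow]
  change lastIdx (incl true (Lt ^ n))⁻¹ = some true
  rw [← map_inv]
  exact lastIdx_incl (inv_ne_one.2 (Lt_pow_ne hn))

lemma P_c {n : ℕ} (hn : 1 ≤ n) : ¬ P ((lft κ false Lt) ^ n) := by
  unfold P
  rw [lft_t_pow]
  change ¬ lastIdx (incl false (Lt ^ n))⁻¹ = some true
  rw [← map_inv, lastIdx_incl (inv_ne_one.2 (Lt_pow_ne hn))]
  simp

section lengths

variable (hκ : ∀ j, 0 ≤ κ j)

include hκ

lemma len_t_pow (i : Bool) (k : ℕ) : k ≤ len (gens κ) ((lft κ i Lt) ^ k) := by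
  have h := (inv_len hκ ((lft κ i Lt) ^ k)).1
  have h1 : (fold ((lft κ i Lt) ^ k).w).p = k := by
    rw [lft_t_pow]
    change (fold (incl i (Lt ^ k))).p = _
    rw [fold_incl, ← zpow_natCast, Lt_zpow]
  rw [h1] at h
  simp only [Nat.abs_cast] at h
  exact_mod_cast h

lemma len_pow_le {s : E κ} (hs : s ∈ gens κ) (k : ℕ) : len (gens κ) (s ^ k) ≤ k := by
  induction k with
  | zero => simp [len_one]
  | succ k ih =>
    rw [pow_succ]
    have := len_mul (E_conn hκ) (s ^ k) s
    have := len_gen hs
    omega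

lemma len_cen_single (j : ℕ) : len (gens κ) (cen (Finsupp.single j 1) : E κ) ≤
    4 * (κ j).toNat + 4 := by
  have hc := E_conn hκ
  rw [cen_single_eq hκ]
  set k := (κ j).toNat
  have ha : len (gens κ) (lft κ true La) ≤ 1 := len_gen (lft_mem true (by simp))
  have hb : len (gens κ) (lft κ true Lb) ≤ 1 := len_gen (lft_mem true (by simp))
  have ht : len (gens κ) ((lft κ true Lt) ^ k) ≤ k := len_pow_le hκ (lft_mem true (by simp)) k
  set A := lft κ true La
  set B := lft κ true Lb
  set X := (lft κ true Lt) ^ k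
  have h1 := len_mul hc (X * B) X⁻¹
  have h2 := len_mul hc X B
  rw [len_inv hc] at h1
  set Y := X * B * X⁻¹
  have h3 := len_mul hc (A * Y * A⁻¹) Y⁻¹
  have h4 := len_mul hc (A * Y) A⁻¹
  have h5 := len_mul hc A Y
  rw [len_inv hc] at h3 h4
  omega

lemma len_cen_ge {v : ℕ →₀ ZMod 2} {j : ℕ} (hj : v j ≠ 0) :
    κ j ≤ 2 * len (gens κ) (cen v : E κ) := by
  have h := (inv_len hκ (cen v)).2.2 j hj
  exact (le_abs_self _).trans h

lemma len_cen_le {v : ℕ →₀ ZMod 2} {J : ℕ} (hv : ∀ j, J ≤ j → v j = 0) :
    len (gens κ) (cen v : E κ) ≤ ∑ j ∈ Finset.range J, (4 * (κ j).toNat + 4) := by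
  have hc := E_conn hκ
  induction J generalizing v with
  | zero =>
    have : v = 0 := by ext j; exact hv j (Nat.zero_le _)
    rw [this]
    change len (gens κ) (1 : E κ) ≤ _
    rw [len_one]; simp
  | succ J ih =>
    rw [Finset.sum_range_succ]
    have h2 : ∀ a : ZMod 2, a = 0 ∨ a = 1 := by decide
    rcases h2 (v J) with h | h
    · have : ∀ j, J ≤ j → v j = 0 := by
        intro j hj
        rcases hj.eq_or_lt with rfl | hj
        · exact h
        · exact hv j hj
      have := ih this
      omega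
    · have h3 : v = (v - Finsupp.single J (1 : ZMod 2)) + Finsupp.single J (1 : ZMod 2) := by abel
      have h4 : ∀ j, J ≤ j → (v - Finsupp.single J (1 : ZMod 2)) j = 0 := by
        intro j hj
        rw [Finsupp.sub_apply, Finsupp.single_apply]
        rcases hj.eq_or_lt with rfl | hj'
        · simp [h]
        · rw [if_neg (by omega), hv j hj', sub_zero]
      have h5 := ih h4
      have h6 := len_cen_single hκ J
      rw [h3, ← cen_mul]
      have h7 := len_mul hc (cen (v - Finsupp.single J 1)) (cen (Finsupp.single J 1) : E κ)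
      omega

end lengths

/-! ### The choice of the sparse set -/

/-- the growth function -/
def F (φ : ℕ → ℕ) (x : ℕ) : ℕ := 2 * (x + 1 + φ (x + 1)) + 2

/-- the partial sums -/
def D (φ : ℕ → ℕ) : ℕ → ℕ
  | 0 => 0
  | j + 1 => D φ j + (4 * F φ (D φ j) + 4)

lemma D_eq (φ : ℕ → ℕ) (J : ℕ) : D φ J = ∑ j ∈ Finset.range J, (4 * F φ (D φ j) + 4) := by
  induction J with
  | zero => rfl
  | succ J ih => rw [Finset.sum_range_succ, ← ih]; rfl

lemma F_D_strictMono (φ : ℕ → ℕ) : StrictMono fun j => F φ (D φ j) := by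
  apply strictMono_nat_of_lt_succ
  intro j
  have h1 : 2 * D φ (j + 1) ≤ F φ (D φ (j + 1)) := by unfold F; omega
  have h2 : D φ (j + 1) = D φ j + (4 * F φ (D φ j) + 4) := rfl
  omega

/-- the sparse set -/
def kap (φ : ℕ → ℕ) : ℕ ↪ ℤ where
  toFun j := (F φ (D φ j) : ℤ)
  inj' i j h := (F_D_strictMono φ).injective (by
    have h' : (F φ (D φ i) : ℤ) = (F φ (D φ j) : ℤ) := h
    exact_mod_cast h')

theorem result : ∀ φ : ℕ → ℕ, ∃ (G : Type) (_ : Group G) (S : Finset G),
    Subgroup.closure (S : Set G) = ⊤ ∧ OneEnded S ∧ {n : ℕ | φ n < th S n}.Infinite := by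
  intro φ
  have hκ : ∀ j, 0 ≤ kap φ j := fun j => by
    change (0 : ℤ) ≤ (F φ (D φ j) : ℤ)
    positivity
  have hc := E_conn hκ
  have hinj : Function.Injective fun j : ℕ => (lft (kap φ) false Lt) ^ j := by
    intro i j hij
    have h1 := len_t_pow hκ false i
    have h2 := len_pow_le hκ (lft_mem false (x := Lt) (by simp)) i
    have h3 := len_t_pow hκ false j
    have h4 := len_pow_le hκ (lft_mem false (x := Lt) (by simp)) j
    simp only at hij
    rw [hij] at h1 h2
    omega
  have hOE : OneEnded (gens (kap φ)) := by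
    apply oneEnded_of hc (lft_mem false (x := Lt) (by simp)) hinj
    intro m
    refine ⟨cen (Finsupp.single m 1), fun g => cen_comm _ g, cen_sq _, ?_⟩
    have h1 := len_cen_ge hκ (v := Finsupp.single m 1) (j := m) (by simp)
    have h2 : (kap φ m : ℤ) = (F φ (D φ m) : ℤ) := rfl
    have h3 : 2 * D φ m + 2 < F φ (D φ m) := by unfold F; omega
    have h4 : ∀ m, m ≤ D φ m := by
      intro m
      induction m with
      | zero => exact Nat.zero_le _
      | succ m ih =>
        have : D φ (m + 1) = D φ m + (4 * F φ (D φ m) + 4) := rfl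
        omega
    have := h4 m
    omega
  refine ⟨E (kap φ), inferInstance, gens (kap φ), closure_gens hκ, hOE, ?_⟩
  have hDmono : StrictMono fun J => D φ J + 1 := by
    apply strictMono_nat_of_lt_succ
    intro j
    have h2 : D φ (j + 1) = D φ j + (4 * F φ (D φ j) + 4) := rfl
    omega
  refine Set.Infinite.mono (s := Set.range fun J => D φ J + 1) ?_
    (Set.infinite_range_of_injective hDmono.injective)
  rintro _ ⟨J, rfl⟩
  refine th_gt hc hOE (c := lft (kap φ) false Lt) (t := lft (kap φ) true Lt)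
    (lft_mem false (by simp)) (lft_mem true (by simp)) (len_t_pow hκ false) (len_t_pow hκ true)
    P {g | g.w = 1} (fun g h H hg hh => P_adj H hg hh) (P_t (Nat.le_add_left 1 _))
    (P_c (Nat.le_add_left 1 _)) _ (le_refl (D φ J + 1 + φ (D φ J + 1))) ?_
  intro z hz
  have hz1 : z = cen z.v := by
    ext1
    · exact hz
    · rfl
  by_cases h : ∀ j, J ≤ j → z.v j = 0
  · left
    have h1 := len_cen_le hκ h
    rw [← hz1] at h1
    have h2 : ∑ j ∈ Finset.range J, (4 * (kap φ j).toNat + 4) = D φ J := by
      rw [D_eq]; rfl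
    change len (gens (kap φ)) z < D φ J + 1
    omega
  · right
    push Not at h
    obtain ⟨j, hj, hj2⟩ := h
    have h1 := len_cen_ge hκ hj2
    rw [← hz1] at h1
    have h2 : (kap φ j : ℤ) = (F φ (D φ j) : ℤ) := rfl
    have h3 : F φ (D φ J) ≤ F φ (D φ j) := (F_D_strictMono φ).monotone hj
    have h4 : F φ (D φ J) = 2 * (D φ J + 1 + φ (D φ J + 1)) + 2 := rfl
    omega

end

end Pool.Agent.Results.MP_164a7b_al.Thickness
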